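import Pool.Agent.TH612.GS.Stm

set_option autoImplicit false

/-!
Project GS: the diagonal term does not depend on the order of the shifts.
-/

namespace Pool.Agent.TH792.GS

open Complex Filter Topology MeasureTheory Set
open Pool.Agent.TH612.CF Pool.Agent.TH612.GS
open Pool.Agent.W182.KO hiding ee SS_summable

noncomputable section

variable {k : ℕ}

theorem tau_perm (l : Fin k → ℂ) (σ : Equiv.Perm (Fin k)) (n : ℕ) :
    tau (fun j => l (σ j)) n = tau l n := by
  unfold tau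
  refine Finset.sum_nbij' (fun f => f ∘ σ.symm) (fun f => f ∘ σ) ?_ ?_ ?_ ?_ ?_
  · intro f hf
    rw [Nat.mem_finMulAntidiag] at hf ⊢
    refine ⟨?_, hf.2⟩
    rw [← hf.1]
    exact Equiv.prod_comp σ.symm f
  · intro f hf
    rw [Nat.mem_finMulAntidiag] at hf ⊢
    refine ⟨?_, hf.2⟩
    rw [← hf.1]
    exact Equiv.prod_comp σ f
  · intro f _
    funext j
    simp
  · intro f _
    funext j
    simp
  · intro f _
    rw [← Equiv.prod_comp σ (fun j => (((f ∘ σ.symm) j : ℕ) : ℂ) ^ (l j))]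
    simp

theorem lt_perm (a b : Fin k → ℂ) (σ ρ : Equiv.Perm (Fin k)) (p m : ℕ) :
    lt (fun j => a (σ j)) (fun j => b (ρ j)) p m = lt a b p m := by
  unfold lt
  rw [tau_perm (fun j => I * b j) ρ, tau_perm (fun j => -(I * a j)) σ]

theorem prod_perm (g : Fin k → Fin k → ℂ) (σ ρ : Equiv.Perm (Fin k)) :
    ∏ j, ∏ l, g (σ j) (ρ l) = ∏ j, ∏ l, g j l := by
  rw [Equiv.prod_comp σ (fun j => ∏ l, g j (ρ l))]
  exact Finset.prod_congr rfl fun j _ => Equiv.prod_comp ρ (fun l => g j l)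

theorem lh_perm (a b : Fin k → ℂ) (σ ρ : Equiv.Perm (Fin k)) (p : ℕ) :
    lh (fun j => a (σ j)) (fun j => b (ρ j)) p = lh a b p := by
  unfold lh
  rw [prod_perm (fun j l => 1 - (p : ℂ) ^ (-(1 + I * a j - I * b l))) σ ρ]
  congr 1
  exact tsum_congr fun m => lt_perm a b σ ρ p m

theorem zab_perm (a b : Fin k → ℂ) (σ ρ : Equiv.Perm (Fin k)) :
    zab (fun j => a (σ j)) (fun j => b (ρ j)) = zab a b := by
  unfold zab FH
  rw [prod_perm (fun j l => riemannZeta (1 + I * a j - I * b l)) σ ρ]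
  congr 1
  exact tprod_congr fun p => lh_perm a b σ ρ p

/-- INV -/
theorem t_INV : Pool.Agent.TH612.GS.S_INV := by
  intro k γ π hπ
  have h1 : Set.MapsTo π (Set.range (Sum.inr : Fin k → Fin k ⊕ Fin k)) (Set.range Sum.inr) := by
    rintro _ ⟨j, rfl⟩
    have h2 := hπ j
    rcases h3 : π (Sum.inr j) with x | x
    · rw [h3] at h2
      simp at h2
    · exact ⟨x, rfl⟩
  have h2 := (Equiv.Perm.perm_mapsTo_inl_iff_mapsTo_inr π).2 h1
  obtain ⟨⟨σ, ρ⟩, hσ⟩ := Equiv.Perm.mem_sumCongrHom_range_of_perm_mapsTo_inl h2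
  have hl : ∀ j, π (Sum.inl j) = Sum.inl (σ j) := fun j => by rw [← hσ]; rfl
  have hr : ∀ j, π (Sum.inr j) = Sum.inr (ρ j) := fun j => by rw [← hσ]; rfl
  constructor
  · simp only [hl, hr]
    exact zab_perm (fun j => (γ (Sum.inl j) : ℂ)) (fun j => (γ (Sum.inr j) : ℂ)) σ ρ
  · intro t
    unfold GG
    simp [hl, hr]

end

end Pool.Agent.TH792.GS
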